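import Pool.Agent.J6H84.TS.Stm

/-!
# TS-SUB
-/

set_option autoImplicit false

namespace Pool.Agent.J6H92.TS.Sub

theorem main : Pool.Agent.J6H84.TS.S_Sub := by
  intro p j _ G _ _ H hdvd
  obtain ⟨K, hK⟩ := Sylow.exists_subgroup_card_pow_prime p hdvd
  refine ⟨K.map H.subtype, Subgroup.map_subtype_le K, ?_⟩
  rw [← hK]
  exact Nat.card_congr (K.equivMapOfInjective H.subtype H.subtype_injective).toEquiv.symm

end Pool.Agent.J6H92.TS.Sub
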